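import Pool.Agent.LE.StmtsH2
import Pool.Agent.Helper26_LE.Erg

/-!
# The shifts are ergodic for a product measure

If `P A ≠ 0` then, by `Pool.Agent.LE.H26.erg`, the event that `tau s V ∉ A` for all sites `s` of a
large cube has a small probability. For an invariant `A` this event is the complement of `A`.
-/

set_option autoImplicit false

open MeasureTheory ProbabilityTheory Function Filter

open scoped ENNReal

noncomputable section

namespace Pool.Agent.LE.CH.H77

open Pool.Agent.Anderson Pool.Agent.Loc Pool.Agent.Mob Pool.Agent.Helper54.Bal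

theorem erg : ErgStmt := by
  intro d ν _ A hd hA hinv
  by_cases h0 : PP d ν A = 0
  · exact Or.inl h0
  · right
    have hc : PP d ν Aᶜ = 0 := by
      by_contra hne
      have hpos : 0 < (PP d ν Aᶜ).toReal := ENNReal.toReal_pos hne (measure_ne_top _ _)
      obtain ⟨n₀, hn⟩ := Pool.Agent.LE.H26.erg d ν A hd hA h0 ((PP d ν Aᶜ).toReal / 2)
        (half_pos hpos)
      have h1 := hn n₀ le_rfl 0
      have h2 : Aᶜ ⊆ {V : Site d → ℝ | ∀ s ∈ box (0 : Site d) n₀, tau s V ∉ A} := by
        intro V hV s _ hs
        apply hV
        rw [← hinv s]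
        exact hs
      have h3 : PP d ν Aᶜ ≤ ENNReal.ofReal ((PP d ν Aᶜ).toReal / 2) := (measure_mono h2).trans h1
      have h4 := ENNReal.toReal_mono ENNReal.ofReal_ne_top h3
      rw [ENNReal.toReal_ofReal (half_pos hpos).le] at h4
      linarith
    exact (prob_compl_eq_zero_iff hA).1 hc

end Pool.Agent.LE.CH.H77
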